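import Mathlib

/-! The generic linear combination of the minors of a generic matrix. -/

namespace Pool.Agent.MP_5d9b3c_ag.H10

/-- The polynomial `∑ y_{P,Q} det (x_{P a, Q b})`, the sum over all increasing sequences `P`, `Q`
of `k` rows and `k` columns of an `m × n` matrix of variables. -/
noncomputable def minorSum (m n k : ℕ) :
    MvPolynomial (((Fin k ↪o Fin m) × (Fin k ↪o Fin n)) ⊕ (Fin m × Fin n)) ℤ :=
  ∑ j : (Fin k ↪o Fin m) × (Fin k ↪o Fin n), MvPolynomial.X (Sum.inl j) *
    (Matrix.of fun a b => MvPolynomial.X (Sum.inr (j.1 a, j.2 b))).det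

end Pool.Agent.MP_5d9b3c_ag.H10
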