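import Mathlib
import Pool.Agent.MP_5d9b3c_ag.H10.Count

/-! Counting matrices whose minors of a given size vanish modulo a prime power. -/

namespace Pool.Agent.MP_5d9b3c_ag.H10

open Matrix

section van

variable {R : Type} [CommRing R] {ρ γ ρ' γ' : Type} {k : ℕ}

/-- All minors of size `k` vanish. -/
def Van (k : ℕ) (x : Matrix ρ γ R) : Prop :=
  ∀ (P : Fin k → ρ) (Q : Fin k → γ), (x.submatrix P Q).det = 0

lemma Van.mul_right [Fintype γ] {x : Matrix ρ γ R} (h : Van k x) (g : Matrix γ γ' R) :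
    Van k (x * g) := by
  classical
  intro P Q
  have : ((x * g).submatrix P Q).det =
      ∑ f : Fin k → γ, (∏ b, g (f b) (Q b)) * (x.submatrix P f).det := by
    simp only [det_apply', submatrix_apply, mul_apply, Finset.prod_univ_sum, Finset.mul_sum,
      Fintype.piFinset_univ]
    rw [Finset.sum_comm]
    refine Finset.sum_congr rfl fun f _ => Finset.sum_congr rfl fun s _ => ?_
    rw [Finset.prod_mul_distrib]
    ring
  simp [this, h P]

lemma Van.transpose {x : Matrix ρ γ R} (h : Van k x) : Van k xᵀ := fun P Q => by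
  rw [← det_transpose]; exact h Q P

lemma Van.mul_left [Fintype ρ] {x : Matrix ρ γ R} (h : Van k x) (g : Matrix ρ' ρ R) :
    Van k (g * x) := by
  have := (h.transpose.mul_right gᵀ).transpose
  rwa [transpose_mul, transpose_transpose, transpose_transpose] at this

lemma van_succ [Fintype ρ] [DecidableEq ρ] [Fintype γ] [DecidableEq γ] (y : Matrix ρ γ R) (i₀ : ρ)
    (j₀ : γ) (hy : ∀ j, y i₀ j = if j = j₀ then 1 else 0) :
    Van (k + 1) y ↔
      Van k (y.submatrix Subtype.val Subtype.val : Matrix {i // i ≠ i₀} {j // j ≠ j₀} R) := by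
  constructor
  · intro h P Q
    have := h (Fin.cons i₀ fun a => (P a).1) (Fin.cons j₀ fun a => (Q a).1)
    rw [det_succ_row_zero, Fin.sum_univ_succ, Finset.sum_eq_zero
      (fun j _ => by simp [hy, (Q j).2])] at this
    simpa [hy, Function.comp_def] using this
  · intro h
    let y₀ : Matrix ρ γ R := of fun i j => if i ≠ i₀ ∧ j = j₀ then 0 else y i j
    have h1 : Van k (y₀.submatrix (Subtype.val : {i // i ≠ i₀} → ρ) id) := by
      have := h.mul_right (of fun (j : {j // j ≠ j₀}) (j' : γ) => if j.1 = j' then (1 : R) else 0)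
      refine (congrArg (Van k) ?_).mp this
      ext i j
      rw [mul_apply]
      by_cases hj : j = j₀
      · subst hj
        rw [Finset.sum_eq_zero fun t _ => by simp [t.2]]
        simp [y₀, i.2]
      · rw [Finset.sum_eq_single ⟨j, hj⟩ (fun t _ ht => by
          rw [of_apply, if_neg (fun e => ht (Subtype.ext e)), mul_zero]) (by simp)]
        simp [y₀, hj]
    have h2 : Van (k + 1) y₀ := by
      intro P Q
      by_cases hP : Function.Injective P
      · obtain ⟨a, ha⟩ : ∃ a, ∀ a', a' ≠ a → P a' ≠ i₀ := by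
          by_cases h3 : ∃ a, P a = i₀
          · obtain ⟨a, rfl⟩ := h3
            exact ⟨a, fun a' ha' e => ha' (hP e)⟩
          · exact ⟨0, fun a' _ e => h3 ⟨a', e⟩⟩
        rw [det_succ_row _ a]
        refine Finset.sum_eq_zero fun j _ => ?_
        have := h1 (fun t => ⟨P (a.succAbove t), ha _ (Fin.succAbove_ne a t)⟩)
          (fun t => Q (j.succAbove t))
        exact mul_eq_zero_of_right _ this
      · obtain ⟨a, b, hab, hne⟩ := Function.not_injective_iff.1 hP
        exact det_zero_of_row_eq hne (by ext i; simp [hab])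
    have := h2.mul_left (1 + of fun i i' => if i' = i₀ ∧ i ≠ i₀ then y i j₀ else 0)
    refine (congrArg (Van (k + 1)) ?_).mp this
    ext i j
    rw [Matrix.add_mul, Matrix.one_mul, Matrix.add_apply, mul_apply,
      Finset.sum_eq_single i₀ (fun t _ ht => by simp [ht]) (by simp)]
    by_cases hi : i = i₀ <;> by_cases hj : j = j₀ <;> simp [y₀, hi, hj, hy]

/-- The number of matrices with some rows divisible by `ϖ` and vanishing minors. -/
noncomputable def cnt (ϖ : R) (A : ρ → Prop) (γ : Type) (k : ℕ) : ℕ :=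
  Nat.card {x : Matrix ρ γ R // (∀ i, A i → ∀ j, ϖ ∣ x i j) ∧ Van k x}

lemma card_split' {G : Type} [Finite G] (P Q : G → Prop) :
    Nat.card {x // P x} = Nat.card {x // P x ∧ Q x} + Nat.card {x // P x ∧ ¬Q x} := by
  classical
  rw [← Nat.card_sum]
  exact Nat.card_congr ((Equiv.sumCompl fun x : {x // P x} => Q x.1).symm.trans
    ((Equiv.subtypeSubtypeEquivSubtypeInter P Q).sumCongr
      (Equiv.subtypeSubtypeEquivSubtypeInter P fun x => ¬Q x)))

lemma cnt_step [Finite R] [Fintype ρ] [DecidableEq ρ] [Fintype γ] [DecidableEq γ] (ϖ : R)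
    (hϖ : ∀ t, ¬ϖ ∣ t → IsUnit t) (A : ρ → Prop) (i₀ : ρ) (hi : ¬A i₀) (j₀ : γ) :
    cnt ϖ A γ (k + 1) = cnt ϖ (fun i => A i ∨ i = i₀) γ (k + 1) +
      Nat.card {r : γ → R // ¬∀ j, ϖ ∣ r j} *
        (Nat.card {u : {i // i ≠ i₀} → R // ∀ i, A i.1 → ϖ ∣ u i} *
          cnt ϖ (fun i : {i // i ≠ i₀} => A i.1) {j // j ≠ j₀} k) := by
  rw [cnt, card_split' _ fun x => ∀ j, ϖ ∣ x i₀ j]
  congr 1
  · refine Nat.card_congr (Equiv.subtypeEquivRight fun x => ?_)
    simp only [or_imp, forall_and, forall_eq]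
    tauto
  have hg : ∀ r : {r : γ → R // ¬∀ j, ϖ ∣ r j}, ∃ g : Matrix γ γ R, IsUnit g.det ∧ g j₀ = r.1 := by
    rintro ⟨r, hr⟩
    obtain ⟨j, hj⟩ := not_forall.1 hr
    refine ⟨((1 : Matrix γ γ R).updateRow j r).submatrix (Equiv.swap j j₀) id, ?_, ?_⟩
    · rw [det_permute]
      refine IsUnit.mul (by rcases Int.units_eq_one_or (Equiv.Perm.sign (Equiv.swap j j₀)) with h | h <;>
        simp [h]) ?_
      rw [← cramer_transpose_apply, transpose_one, cramer_one]
      exact hϖ _ hj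
    · ext t; simp
  choose g hg1 hg2 using hg
  let asm : ({i // i ≠ i₀} → R) → Matrix {i // i ≠ i₀} {j // j ≠ j₀} R → Matrix ρ γ R :=
    fun u Z => of fun i j => if hi : i = i₀ then (if j = j₀ then 1 else 0) else
      if hj : j = j₀ then u ⟨i, hi⟩ else Z ⟨i, hi⟩ ⟨j, hj⟩
  have a1 : ∀ u Z j, asm u Z i₀ j = if j = j₀ then 1 else 0 := fun u Z j => by simp [asm]
  have a2 : ∀ u Z (i : {i // i ≠ i₀}), asm u Z i j₀ = u i := fun u Z i => by simp [asm, i.2]
  have a3 : ∀ u Z, (asm u Z).submatrix Subtype.val Subtype.val = Z := fun u Z => by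
    ext i j; simp [asm, i.2, j.2]
  have a4 : ∀ u Z r, (asm u Z * g r) i₀ = r.1 := fun u Z r => by
    ext j; simp [mul_apply, a1, hg2]
  rw [cnt, ← Nat.card_prod, ← Nat.card_prod]
  symm
  refine Nat.card_eq_of_bijective (fun w => ⟨asm w.2.1.1 w.2.2.1 * g w.1, ⟨fun i h j => ?_, ?_⟩, ?_⟩)
    ⟨?_, ?_⟩
  · have hi' : i ≠ i₀ := fun e => hi (e ▸ h)
    refine Finset.dvd_sum fun t _ => Dvd.dvd.mul_right ?_ _
    by_cases ht : t = j₀
    · simpa [asm, hi', ht] using w.2.1.2 ⟨i, hi'⟩ h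
    · simpa [asm, hi', ht] using w.2.2.2.1 ⟨i, hi'⟩ h ⟨t, ht⟩
  · exact ((van_succ _ i₀ j₀ (a1 _ _)).2 (by rw [a3]; exact w.2.2.2.2)).mul_right _
  · rw [a4]; exact w.1.2
  · rintro ⟨r, ⟨u, hu⟩, ⟨Z, hZ⟩⟩ ⟨r', ⟨u', hu'⟩, ⟨Z', hZ'⟩⟩ h
    have h1 : asm u Z * g r = asm u' Z' * g r' := congrArg Subtype.val h
    obtain rfl : r = r' := Subtype.ext (by rw [← a4 u Z r, h1, a4])
    have h2 : asm u Z = asm u' Z' := by
      have := congrArg (· * (g r)⁻¹) h1
      simpa only [Matrix.mul_assoc, mul_nonsing_inv _ (hg1 r), Matrix.mul_one] using this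
    obtain rfl : u = u' := funext fun i => by rw [← a2 u Z i, h2, a2]
    obtain rfl : Z = Z' := by rw [← a3 u Z, h2, a3]
    rfl
  · rintro ⟨x, ⟨h1, h2⟩, h3⟩
    set r : {r : γ → R // ¬∀ j, ϖ ∣ r j} := ⟨x i₀, h3⟩
    have h4 : ∀ j, (x * (g r)⁻¹) i₀ j = if j = j₀ then 1 else 0 := fun j => by
      have := congrFun (congrFun (mul_nonsing_inv _ (hg1 r)) j₀) j
      rw [mul_apply, hg2, one_apply] at this
      simpa [mul_apply, eq_comm] using this
    have h5 : ∀ i, A i → ∀ j, ϖ ∣ (x * (g r)⁻¹) i j := fun i h j =>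
      Finset.dvd_sum fun t _ => (h1 i h t).mul_right _
    refine ⟨⟨r, ⟨fun i => (x * (g r)⁻¹) i j₀, fun i h => h5 _ h _⟩,
      ⟨(x * (g r)⁻¹).submatrix Subtype.val Subtype.val, fun i h j => h5 _ h _,
        (van_succ _ i₀ j₀ h4).1 (h2.mul_right _)⟩⟩, Subtype.ext ?_⟩
    have h6 : asm (fun i => (x * (g r)⁻¹) i j₀) ((x * (g r)⁻¹).submatrix Subtype.val Subtype.val) =
        x * (g r)⁻¹ := by
      ext i j
      by_cases hi : i = i₀
      · simp [asm, hi, h4]
      · by_cases hj : j = j₀ <;> simp [asm, hi, hj]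
    change asm _ _ * g r = x
    rw [h6, Matrix.mul_assoc, nonsing_inv_mul _ (hg1 r), Matrix.mul_one]

lemma card_all {ι : Type} [Fintype ι] {G : Type} (Q : ι → G → Prop) :
    Nat.card {u : ι → G // ∀ i, Q i (u i)} = ∏ i, Nat.card {t // Q i t} := by
  rw [Nat.card_congr (Equiv.subtypePiEquivPi (p := Q)), Nat.card_pi]

lemma card_all₂ [Fintype ρ] [Fintype γ] {G : Type} (Q : G → Prop) :
    Nat.card {x : Matrix ρ γ G // ∀ i j, Q (x i j)} =
      Nat.card {t // Q t} ^ (Fintype.card ρ * Fintype.card γ) := by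
  refine (card_all (ι := ρ) fun _ (r : γ → G) => ∀ j, Q (r j)).trans ?_
  simp [card_all (fun _ => Q), ← pow_mul, mul_comm]

end van

section zmod

variable {p : ℕ} (hp : p.Prime)

/-- Reduction of the modulus. -/
def rd (p M k : ℕ) : ZMod (p ^ (M + k)) →+* ZMod (p ^ M) :=
  ZMod.castHom (pow_dvd_pow p (Nat.le_add_right M k)) _

include hp

lemma rd_zero (M k : ℕ) (t : ZMod (p ^ (M + k))) : (p : ZMod _) ^ k * t = 0 ↔ rd p M k t = 0 := by
  have : NeZero (p ^ (M + k)) := ⟨pow_ne_zero _ hp.ne_zero⟩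
  obtain ⟨a, rfl⟩ := ZMod.natCast_zmod_surjective t
  rw [map_natCast, ← Nat.cast_pow, ← Nat.cast_mul, ZMod.natCast_eq_zero_iff,
    ZMod.natCast_eq_zero_iff, pow_add, mul_comm, Nat.mul_dvd_mul_iff_left (pow_pos hp.pos _)]

lemma card_rd (M k : ℕ) : Nat.card {t // rd p M k t = 0} = p ^ k := by
  have h := card_pre (rd p M k).toAddMonoidHom (fun _ => True)
    fun h _ => ZMod.ringHom_surjective (rd p M k) h
  rw [Nat.card_subtype_true, Nat.card_subtype_true, Nat.card_zmod, Nat.card_zmod] at h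
  change p ^ (M + k) = Nat.card {t // rd p M k t = 0} * p ^ M at h
  generalize Nat.card {t // rd p M k t = 0} = c at h ⊢
  rw [pow_add, mul_comm] at h
  exact (Nat.eq_of_mul_eq_mul_right (pow_pos hp.pos _) h).symm

lemma card_ann (M : ℕ) : Nat.card {t : ZMod (p ^ (M + 1)) // (p : ZMod _) * t = 0} = p := by
  refine Eq.trans ?_ ((card_rd hp M 1).trans (pow_one p))
  exact Nat.card_congr (Equiv.subtypeEquivRight fun t => by rw [← rd_zero hp, pow_one])

lemma card_dvd (M : ℕ) : Nat.card {t : ZMod (p ^ (M + 1)) // (p : ZMod _) ∣ t} = p ^ M := by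
  have h := card_pre (AddMonoidHom.mulLeft (p : ZMod (p ^ (M + 1)))) (fun t => (p : ZMod _) ∣ t)
    fun h ⟨c, hc⟩ => ⟨c, hc.symm⟩
  simp only [AddMonoidHom.coe_mulLeft, dvd_mul_right, Nat.card_subtype_true, Nat.card_zmod,
    card_ann hp] at h
  exact (Nat.eq_of_mul_eq_mul_left hp.pos ((pow_succ' p M).symm.trans h)).symm

lemma unit_of (N : ℕ) (t : ZMod (p ^ N)) (h : ¬(p : ZMod _) ∣ t) : IsUnit t := by
  have : NeZero (p ^ N) := ⟨pow_ne_zero _ hp.ne_zero⟩
  obtain ⟨a, rfl⟩ := ZMod.natCast_zmod_surjective t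
  rw [ZMod.isUnit_iff_coprime]
  exact Nat.Coprime.pow_right _ ((Nat.Prime.coprime_iff_not_dvd hp).2 fun h' =>
    h (Nat.cast_dvd_cast h')).symm

lemma cnt_scale {ρ γ : Type} [Fintype ρ] [Fintype γ] (M k : ℕ) :
    p ^ (Fintype.card ρ * Fintype.card γ) *
        cnt (p : ZMod (p ^ (M + (k + 1)))) (fun _ : ρ => True) γ (k + 1) =
      (p ^ (k + 1)) ^ (Fintype.card ρ * Fintype.card γ) *
        cnt (p : ZMod (p ^ M)) (fun _ : ρ => False) γ (k + 1) := by
  have h1 := card_pre (DistribMulAction.toAddMonoidHom (Matrix ρ γ (ZMod (p ^ (M + (k + 1)))))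
    (p : ZMod (p ^ (M + (k + 1)))))
    (fun x => (∀ i, True → ∀ j, (p : ZMod _) ∣ x i j) ∧ Van (k + 1) x) fun x hx => by
      choose c hc using fun i j => hx.1 i trivial j
      exact ⟨of c, by ext i j; simp [hc]⟩
  have h2 := card_pre ((rd p M (k + 1)).toAddMonoidHom.mapMatrix (m := ρ) (n := γ))
    (fun x => (∀ i, False → ∀ j, (p : ZMod _) ∣ x i j) ∧ Van (k + 1) x) fun x _ => by
      choose c hc using fun i j => ZMod.ringHom_surjective (rd p M (k + 1)) (x i j)
      exact ⟨of c, by ext i j; simp [hc]⟩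
  have k1 := card_all₂ (ρ := ρ) (γ := γ) fun t : ZMod (p ^ (M + (k + 1))) => (p : ZMod _) * t = 0
  have k2 := card_all₂ (ρ := ρ) (γ := γ) fun t => rd p M (k + 1) t = 0
  rw [card_rd hp] at k2
  rw [show Nat.card {t : ZMod (p ^ (M + (k + 1))) // (p : ZMod _) * t = 0} = p from
    card_ann hp (M + k)] at k1
  rw [← k1, ← k2, cnt, cnt]
  refine Eq.trans ?_ (h1.symm.trans (Eq.trans ?_ (h2.trans ?_)))
  · congr 1
    exact Nat.card_congr (Equiv.subtypeEquivRight fun x => by simp [← Matrix.ext_iff])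
  · refine Nat.card_congr (Equiv.subtypeEquivRight fun x => and_congr (by simp) ?_)
    refine forall_congr' fun P => forall_congr' fun Q => ?_
    have := (rd p M (k + 1)).map_det (x.submatrix P Q)
    rw [DistribMulAction.toAddMonoidHom_apply, submatrix_smul, Pi.smul_apply, Pi.smul_apply,
      det_smul, Fintype.card_fin, rd_zero hp, this]
    rfl
  · congr 1
    exact Nat.card_congr (Equiv.subtypeEquivRight fun x => by simp [← Matrix.ext_iff])

end zmod

end Pool.Agent.MP_5d9b3c_ag.H10
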