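import Mathlib
import Pool.Agent.MP_5d9b3c_ag.H72.Defs
import Pool.Agent.MP_ee8c61_ag.H10.Core

/-! From the functional equation of `∑ y_j f_j` to the functional equation of the ideal. -/

namespace Pool.Agent.MP_5d9b3c_ag.H10

open MvPolynomial Pool.Agent.MP_ee8c61_ag.H10 Pool.Agent.MP_5d9b3c_ag.H72

variable {σ κ : Type} [Fintype κ] [DecidableEq κ]

/-- The coefficient of `y ^ s`, times `s!`. -/
noncomputable def lam (s : κ → ℕ) : MvPolynomial (κ ⊕ σ) ℂ →ₗ[ℂ] MvPolynomial σ ℂ :=
  (∏ j, ((s j).factorial : ℂ)) •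
    ((lcoeff (MvPolynomial σ ℂ) (Finsupp.equivFunOnFinite.symm s)).restrictScalars ℂ ∘ₗ
      (sumAlgEquiv ℂ κ σ).toLinearMap)

omit [DecidableEq κ] in
lemma lam_apply (s : κ → ℕ) (H : MvPolynomial (κ ⊕ σ) ℂ) : lam s H = (∏ j, ((s j).factorial : ℂ)) •
    coeff (Finsupp.equivFunOnFinite.symm s) (sumAlgEquiv ℂ κ σ H) := rfl

lemma prod_upd {M : Type} [CommMonoid M] (g : κ → ℕ → M) (s : κ → ℕ) (j : κ) (n : ℕ) :
    ∏ i, g i (Function.update s j n i) = g j n * ∏ i ∈ Finset.univ.erase j, g i (s i) := by
  rw [← Finset.mul_prod_erase _ _ (Finset.mem_univ j), Function.update_self]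
  congr 1
  exact Finset.prod_congr rfl fun i hi => by rw [Function.update_of_ne (Finset.ne_of_mem_erase hi)]

lemma lam_dy (s : κ → ℕ) (j : κ) (H : MvPolynomial (κ ⊕ σ) ℂ) :
    lam s (pderiv (Sum.inl j) H) = lam (Function.update s j (s j + 1)) H := by
  have e : Finsupp.equivFunOnFinite.symm (Function.update s j (s j + 1)) =
      Finsupp.equivFunOnFinite.symm s + Finsupp.single j 1 := by
    ext i
    by_cases h : i = j
    · subst h; simp
    · simp [h]
  rw [lam_apply, lam_apply, ← pderiv_sumAlgEquiv, coeff_pderiv, e,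
    prod_upd (fun _ n => (n.factorial : ℂ)), ← Finset.mul_prod_erase _ _ (Finset.mem_univ j)]
  simp only [Finsupp.coe_equivFunOnFinite_symm, Nat.factorial_succ, smul_eq_C_mul, Nat.cast_mul,
    map_mul, Nat.cast_add, Nat.cast_one, map_add, map_natCast, map_one]
  ring

lemma lam_y (s : κ → ℕ) (j : κ) (H : MvPolynomial (κ ⊕ σ) ℂ) :
    lam s (X (Sum.inl j) * H) = (s j : ℂ) • lam (Function.update s j (s j - 1)) H := by
  have e : Finsupp.equivFunOnFinite.symm (Function.update s j (s j - 1)) =
      Finsupp.equivFunOnFinite.symm s - Finsupp.single j 1 := by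
    ext i
    by_cases h : i = j
    · subst h; simp
    · simp [h]
  rw [lam_apply, lam_apply, map_mul, sumAlgEquiv_X_inl, coeff_X_mul', e,
    prod_upd (fun _ n => (n.factorial : ℂ)), ← Finset.mul_prod_erase _ _ (Finset.mem_univ j)]
  rcases h : s j with _ | n
  · simp [h]
  · rw [if_pos (by simp [h]), smul_smul, Nat.factorial_succ]
    simp [mul_assoc]

omit [DecidableEq κ] in
lemma lam_x (s : κ → ℕ) (a : MvPolynomial σ ℂ) (H : MvPolynomial (κ ⊕ σ) ℂ) :
    lam s (rename Sum.inr a * H) = a * lam s H := by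
  have : sumAlgEquiv ℂ κ σ (rename Sum.inr a) = C a :=
    congrArg (fun φ => φ a) (sumAlgEquiv_comp_rename_inr ℂ κ σ)
  rw [lam_apply, lam_apply, map_mul, this, coeff_C_mul, mul_smul_comm]

lemma lam_one (s : κ → ℕ) : lam s (1 : MvPolynomial (κ ⊕ σ) ℂ) = if s = 0 then 1 else 0 := by
  rw [lam_apply, map_one, coeff_one]
  by_cases h : s = 0
  · subst h
    rw [if_pos (by ext; simp)]
    simp
  · rw [if_neg h, if_neg, smul_zero]
    intro h'
    apply h
    ext i
    simpa using (congrArg (fun t => t i) h').symm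

lemma lam_dx (s : κ → ℕ) (i : σ) (H : MvPolynomial (κ ⊕ σ) ℂ) :
    lam s (pderiv (Sum.inr i) H) = pderiv i (lam s H) := by
  classical
  induction H using MvPolynomial.induction_on generalizing s with
  | C a =>
    rw [pderiv_C, map_zero, ← mul_one (C a), ← smul_eq_C_mul, map_smul, lam_one]
    split_ifs <;> simp
  | add p q hp hq => simp only [map_add, hp, hq]
  | mul_X p n hp =>
    rw [mul_comm p, pderiv_mul]
    rcases n with n | n
    · rw [pderiv_X_of_ne (by simp), zero_mul, zero_add, lam_y, lam_y, hp, Derivation.map_smul]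
    · rw [← rename_X Sum.inr n, pderiv_rename Sum.inr_injective, map_add, lam_x, lam_x, lam_x, hp,
        pderiv_mul]

lemma lam_pow (f : κ → MvPolynomial σ ℂ) (N : ℕ) (s : κ → ℕ) :
    lam s ((∑ j, X (Sum.inl j) * rename Sum.inr (f j)) ^ N) =
      if ∑ j, s j = N then (N.factorial : ℂ) • ∏ j, f j ^ s j else 0 := by
  induction N generalizing s with
  | zero =>
    rw [pow_zero, lam_one]
    by_cases h : s = 0
    · simp [h]
    · rw [if_neg h, if_neg]
      intro h'
      exact h (funext fun j => Finset.sum_eq_zero_iff.1 h' j (Finset.mem_univ j))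
  | succ N ih =>
    rw [pow_succ', Finset.sum_mul, map_sum]
    have : ∀ j, lam s (X (Sum.inl j) * rename Sum.inr (f j) *
        (∑ j, X (Sum.inl j) * rename Sum.inr (f j)) ^ N) =
        (s j : ℂ) • if ∑ j, s j = N + 1 then (N.factorial : ℂ) • ∏ j, f j ^ s j else 0 := by
      intro j
      rw [mul_assoc, lam_y, lam_x, ih]
      rcases h : s j with _ | n
      · simp
      · have e : ∑ i, s i = ∑ i, Function.update s j (n + 1 - 1) i + 1 := by
          rw [Finset.sum_update_of_mem (Finset.mem_univ j), ← Finset.add_sum_erase _ _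
            (Finset.mem_univ j), h, Finset.sdiff_singleton_eq_erase]
          omega
        rw [e, prod_upd (fun i n => f i ^ n), ← Finset.mul_prod_erase _ _ (Finset.mem_univ j), h]
        simp only [Nat.add_right_cancel_iff, Nat.add_sub_cancel]
        split_ifs
        · rw [mul_smul_comm, pow_succ', mul_assoc]
        · simp
    simp only [this, ← Finset.sum_smul]
    split_ifs with h
    · rw [← Nat.cast_sum, h, smul_smul, Nat.factorial_succ, Nat.cast_mul]
    · simp

/-- The elementary families. -/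
noncomputable def gen (G : ℕ → MvPolynomial (κ ⊕ σ) ℂ) (q : MvPolynomial κ ℂ)
    (a : MvPolynomial σ ℂ) (L : List σ) (c : κ → ℤ) (m : ℕ) (s : κ → ℕ) : MvPolynomial σ ℂ :=
  (eval (fun j => (s j : ℂ)) q * ∏ j, ((s j).choose (-c j).toNat : ℂ)) •
    (a * L.foldr (fun i h => pderiv i h) (lam (fun j => ((s j : ℤ) + c j).toNat) (G m)))

/-- Sums of elementary families. -/
noncomputable def ZZ (G : ℕ → MvPolynomial (κ ⊕ σ) ℂ) :
    AddSubmonoid (ℕ → (κ → ℕ) → MvPolynomial σ ℂ) :=
  AddSubmonoid.closure {g | ∃ q a L c, g = gen G q a L c}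

omit [DecidableEq κ] in
lemma ZZ_map {G : ℕ → MvPolynomial (κ ⊕ σ) ℂ} {V : Type} [AddCommMonoid V] (W : AddSubmonoid V)
    (T : (ℕ → (κ → ℕ) → MvPolynomial σ ℂ) → V) (h0 : T 0 = 0)
    (h1 : ∀ a b, T (a + b) = T a + T b) (h2 : ∀ q a L c, T (gen G q a L c) ∈ W) :
    ∀ g ∈ ZZ G, T g ∈ W := by
  intro g hg
  induction hg using AddSubmonoid.closure_induction with
  | mem x hx => obtain ⟨q, a, L, c, rfl⟩ := hx; exact h2 q a L c
  | zero => rw [h0]; exact zero_mem _
  | add x y _ _ hx hy => rw [h1]; exact add_mem hx hy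

omit [DecidableEq κ] in
lemma gen_mem' (G : ℕ → MvPolynomial (κ ⊕ σ) ℂ) (q a L c) : gen G q a L c ∈ ZZ G :=
  AddSubmonoid.subset_closure ⟨q, a, L, c, rfl⟩

omit [DecidableEq κ] in
lemma ZZ_poly {G : ℕ → MvPolynomial (κ ⊕ σ) ℂ} (r : MvPolynomial κ ℂ) : ∀ g ∈ ZZ G,
    (fun m s => eval (fun j => (s j : ℂ)) r • g m s) ∈ ZZ G :=
  ZZ_map _ _ (by ext1; ext1; simp) (fun a b => by ext1; ext1; simp) fun q a L c => by
    have := gen_mem' G (r * q) a L c
    refine (congrArg (· ∈ ZZ G) ?_).mp this
    ext1 m; ext1 s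
    simp only [gen, map_mul, smul_smul, mul_assoc]

lemma eval_shift (s : κ → ℕ) (j : κ) (n : ℕ) (t : ℂ) (h : (n : ℂ) = s j + t)
    (q : MvPolynomial κ ℂ) :
    eval (fun i => (s i : ℂ)) (aeval (fun i => X i + if i = j then C t else 0) q) =
      eval (fun i => (Function.update s j n i : ℂ)) q := by
  induction q using MvPolynomial.induction_on with
  | C a => simp
  | add p q hp hq => simp only [map_add, hp, hq]
  | mul_X p i hp =>
    simp only [map_mul, hp, aeval_X, map_add, eval_X]
    by_cases hi : i = j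
    · subst hi; simp [h]
    · simp [hi]

lemma ZZ_weyl {G : ℕ → MvPolynomial (κ ⊕ σ) ℂ} {P : Module.End ℂ (MvPolynomial (κ ⊕ σ) ℂ)}
    (hP : P ∈ weyl (κ ⊕ σ)) : ∀ A : ℕ → MvPolynomial (κ ⊕ σ) ℂ,
      (fun m s => lam s (A m)) ∈ ZZ G → (fun m s => lam s (P (A m))) ∈ ZZ G := by
  induction hP using Algebra.adjoin_induction with
  | algebraMap r =>
    intro A hA
    simpa using ZZ_poly (C r) _ hA
  | add x y _ _ hx hy =>
    intro A hA
    simp only [LinearMap.add_apply, map_add]
    exact add_mem (hx A hA) (hy A hA)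
  | mul x y _ _ hx hy => exact fun A hA => hx _ (hy A hA)
  | mem x hx =>
    intro A hA
    rcases hx with ⟨i | i, rfl⟩ | ⟨i | i, rfl⟩
    · simp only [LinearMap.mulLeft_apply, lam_y]
      refine (ZZ_map (G := G) (ZZ G) (fun g m s => (s i : ℂ) • g m (Function.update s i (s i - 1)))
        (by ext1; ext1; simp) (fun a b => by ext1; ext1; simp) (fun q a L c => ?_) _ hA :)
      have := gen_mem' G ((if c i ≤ 0 then C (((-c i).toNat + 1 : ℕ) : ℂ) else X i) *
        aeval (fun j => X j + if j = i then C (-1) else 0) q) a L (Function.update c i (c i - 1))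
      refine (congrArg (· ∈ ZZ G) ?_).mp this
      ext1 m; ext1 s
      have e1 : ∏ j, ((s j).choose (-Function.update c i (c i - 1) j).toNat : ℂ) =
          (s i).choose (-(c i - 1)).toNat *
            ∏ j ∈ Finset.univ.erase i, ((s j).choose (-c j).toNat : ℂ) := by
        rw [← Finset.mul_prod_erase _ _ (Finset.mem_univ i), Function.update_self]
        congr 1
        exact Finset.prod_congr rfl fun j hj => by
          rw [Function.update_of_ne (Finset.ne_of_mem_erase hj)]
      simp only [gen, smul_smul, e1, prod_upd (fun j n => (n.choose (-c j).toNat : ℂ)), map_mul]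
      rcases h : s i with _ | n
      · have : (-(c i - 1)).toNat = (-c i).toNat + 1 ∨ ¬c i ≤ 0 := by omega
        rcases this with h1 | h1
        · rw [h1]; simp
        · simp [h1, h]
      · rw [eval_shift s i n (-1) (by simp [h]), Nat.add_sub_cancel]
        congr 1
        · split_ifs with h1
          · have h2 : (-(c i - 1)).toNat = (-c i).toNat + 1 := by omega
            have h3 := congrArg (Nat.cast : ℕ → ℂ) (Nat.add_one_mul_choose_eq n (-c i).toNat)
            rw [h2, eval_C]
            push_cast at h3 ⊢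
            linear_combination (-eval (fun j => (Function.update s i n j : ℂ)) q *
              ∏ j ∈ Finset.univ.erase i, ((s j).choose (-c j).toNat : ℂ)) * h3
          · have h2 : (-(c i - 1)).toNat = 0 := by omega
            have h3 : (-c i).toNat = 0 := by omega
            rw [h2, h3]
            simp [h, mul_assoc]
        · congr 4
          funext j
          by_cases hj : j = i
          · subst hj; simp only [Function.update_self, h]; omega
          · simp [hj]
    · simp only [LinearMap.mulLeft_apply, ← rename_X Sum.inr i, lam_x]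
      refine (ZZ_map (G := G) (ZZ G) (fun g m s => X i * g m s) (by ext1; ext1; simp)
        (fun a b => by ext1; ext1; simp [mul_add]) (fun q a L c => ?_) _ hA :)
      have := gen_mem' G q (X i * a) L c
      refine (congrArg (· ∈ ZZ G) ?_).mp this
      ext1 m; ext1 s
      simp only [gen, mul_smul_comm, mul_assoc]
    · simp only [Derivation.coeFn_coe, lam_dy]
      refine (ZZ_map (G := G) (ZZ G) (fun g m s => g m (Function.update s i (s i + 1)))
        (by ext1; ext1; simp) (fun a b => by ext1; ext1; simp) (fun q a L c => ?_) _ hA :)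
      have := gen_mem' G ((if c i < 0 then C (((-c i).toNat : ℕ) : ℂ)⁻¹ * (X i + 1) else 1) *
        aeval (fun j => X j + if j = i then C 1 else 0) q) a L (Function.update c i (c i + 1))
      refine (congrArg (· ∈ ZZ G) ?_).mp this
      ext1 m; ext1 s
      have e1 : ∏ j, ((s j).choose (-Function.update c i (c i + 1) j).toNat : ℂ) =
          (s i).choose (-(c i + 1)).toNat *
            ∏ j ∈ Finset.univ.erase i, ((s j).choose (-c j).toNat : ℂ) := by
        rw [← Finset.mul_prod_erase _ _ (Finset.mem_univ i), Function.update_self]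
        congr 1
        exact Finset.prod_congr rfl fun j hj => by
          rw [Function.update_of_ne (Finset.ne_of_mem_erase hj)]
      simp only [gen, e1, prod_upd (fun j n => (n.choose (-c j).toNat : ℂ)), map_mul]
      rw [eval_shift s i (s i + 1) 1 (by simp)]
      congr 1
      · split_ifs with h1
        · obtain ⟨d, hd⟩ : ∃ d : ℕ, (-c i).toNat = d + 1 := ⟨(-c i).toNat - 1, by omega⟩
          have h2 : (-(c i + 1)).toNat = d := by omega
          have h3 := congrArg (Nat.cast : ℕ → ℂ) (Nat.add_one_mul_choose_eq (s i) d)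
          have h4 : (d : ℂ) + 1 ≠ 0 := by exact_mod_cast d.succ_ne_zero
          rw [h2, hd]
          simp only [map_mul, eval_C, map_add, eval_X, map_one]
          push_cast at h3 ⊢
          field_simp
          linear_combination (eval (fun j => (Function.update s i (s i + 1) j : ℂ)) q *
              ∏ j ∈ Finset.univ.erase i, ((s j).choose (-c j).toNat : ℂ)) * h3
        · have h2 : (-(c i + 1)).toNat = 0 := by omega
          have h3 : (-c i).toNat = 0 := by omega
          rw [h2, h3]
          simp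
      · congr 4
        funext j
        by_cases hj : j = i
        · subst hj; simp only [Function.update_self]; omega
        · simp [hj]
    · simp only [Derivation.coeFn_coe, lam_dx]
      refine (ZZ_map (G := G) (ZZ G) (fun g m s => pderiv i (g m s)) (by ext1; ext1; simp)
        (fun a b => by ext1; ext1; simp) (fun q a L c => ?_) _ hA :)
      have := add_mem (gen_mem' G q (pderiv i a) L c) (gen_mem' G q a (i :: L) c)
      refine (congrArg (· ∈ ZZ G) ?_).mp this
      ext1 m; ext1 s
      simp only [gen, Pi.add_apply, Derivation.map_smul, pderiv_mul, smul_add, List.foldr_cons]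

/-- The families that occur in the functional equation of the ideal. -/
noncomputable def WS (f : κ → MvPolynomial σ ℂ) : AddSubmonoid ((κ → ℕ) → MvPolynomial σ ℂ) where
  carrier := {g | ∃ (S : Finset (κ → ℤ)) (P : (κ → ℤ) → DiffOp σ κ), (∀ c ∈ S, ∑ j, c j = 1) ∧
    ∀ s : κ → ℕ, g s = ∑ c ∈ S, act (P c) s
      (C (∏ j, ((s j).choose (-c j).toNat : ℂ)) * ∏ j, f j ^ ((s j : ℤ) + c j).toNat)}
  zero_mem' := ⟨∅, 0, by simp, by simp⟩
  add_mem' := by
    rintro g g' ⟨S, P, h1, h2⟩ ⟨S', P', h1', h2'⟩
    have ha : ∀ (Q Q' : DiffOp σ κ) s g, act (Q + Q') s g = act Q s g + act Q' s g :=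
      fun Q Q' s g => Finsupp.sum_add_index' (by simp) (by simp [add_mul])
    have h0 : ∀ s g, act (0 : DiffOp σ κ) s g = 0 := fun s g => by simp [act]
    refine ⟨S ∪ S', fun c => (if c ∈ S then P c else 0) + if c ∈ S' then P' c else 0,
      fun c hc => (Finset.mem_union.1 hc).elim (h1 c) (h1' c), fun s => ?_⟩
    have h3 : ∀ (p : Prop) [Decidable p] (Q : DiffOp σ κ) g,
        act (if p then Q else 0) s g = if p then act Q s g else 0 := fun p _ Q g => by
      split_ifs <;> simp [h0]
    simp only [Pi.add_apply, h2, h2', ha, Finset.sum_add_distrib, h3,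
      Finset.sum_ite_mem, Finset.union_inter_cancel_left, Finset.union_inter_cancel_right]

theorem isBS_of (f : κ → MvPolynomial σ ℂ) (b : Polynomial ℂ)
    (hb : IsBFunction (∑ j, X (Sum.inl j) * rename Sum.inr (f j)) b) : IsBS f b := by
  obtain ⟨d, P, hP, h⟩ := hb
  set F : MvPolynomial (κ ⊕ σ) ℂ := ∑ j, X (Sum.inl j) * rename Sum.inr (f j) with hF
  have base : (fun m s => lam s (F ^ (m + 1))) ∈ ZZ fun m => F ^ (m + 1) := by
    have := gen_mem' (fun m => F ^ (m + 1)) 1 1 [] 0
    refine (congrArg (· ∈ ZZ _) ?_).mp this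
    ext1 m; ext1 s
    simp [gen]
  have h1 := sum_mem (t := Finset.range d) fun t _ =>
    ZZ_poly ((∑ j, X j + 1) * (∑ j, X j) ^ t) _ (ZZ_weyl (hP t) _ base)
  have h2 := ZZ_map (G := fun m => F ^ (m + 1)) (WS f)
    (fun g s => (((∑ j, s j) + 1).factorial : ℂ)⁻¹ • g (∑ j, s j) s) (by ext1; simp)
    (fun a b => by ext1; simp) (fun q a L c => ?_) _ h1
  · refine (congrArg (· ∈ WS f) ?_).mp h2
    ext1 s
    have h3 := congrArg (lam s) (h (∑ j, s j))
    rw [map_smul, hF, lam_pow, if_pos rfl, map_sum] at h3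
    have h4 : (((∑ j, s j) + 1).factorial : ℂ) ≠ 0 := by exact_mod_cast Nat.factorial_ne_zero _
    simp only [map_smul, Nat.cast_sum] at h3
    simp only [Finset.sum_apply, map_mul, map_add, map_pow, map_sum, eval_X, map_one, mul_smul,
      ← Finset.smul_sum, hF, h3]
    simp only [smul_smul, ← smul_eq_C_mul]
    congr 1
    rw [Nat.factorial_succ] at h4 ⊢
    push_cast at h4 ⊢
    field_simp [left_ne_zero_of_mul h4, right_ne_zero_of_mul h4]
  · have key : ∀ s : κ → ℕ, (((∑ j, s j) + 1).factorial : ℂ)⁻¹ •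
        gen (fun m => F ^ (m + 1)) q a L c (∑ j, s j) s = if ∑ j, c j = 1 then
        act (Finsupp.single L (C q * map C a)) s (C (∏ j, ((s j).choose (-c j).toNat : ℂ)) *
          ∏ j, f j ^ ((s j : ℤ) + c j).toNat) else 0 := by
      intro s
      have e0 : map (eval fun j => (s j : ℂ)) (map C a) = a := by
        rw [map_map]
        have : (eval fun j => (s j : ℂ)).comp (C : ℂ →+* MvPolynomial κ ℂ) = RingHom.id ℂ :=
          RingHom.ext fun _ => eval_C _
        rw [this, map_id]
      rw [act, Finsupp.sum_single_index (by simp), foldr_C, gen, map_mul, map_C, e0]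
      by_cases h0 : ∏ j, ((s j).choose (-c j).toNat : ℂ) = 0
      · simp [h0]
      · have h5 : ∀ j, 0 ≤ (s j : ℤ) + c j := fun j => by
          by_contra hj
          exact h0 (Finset.prod_eq_zero (Finset.mem_univ j)
            (by rw [Nat.choose_eq_zero_of_lt (by omega), Nat.cast_zero]))
        have h6 : ((∑ j, ((s j : ℤ) + c j).toNat : ℕ) : ℤ) = (∑ j, s j : ℕ) + ∑ j, c j := by
          push_cast
          rw [← Finset.sum_add_distrib]
          exact Finset.sum_congr rfl fun j _ => Int.toNat_of_nonneg (h5 j)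
        have h4 : (((∑ j, s j) + 1).factorial : ℂ) ≠ 0 := by exact_mod_cast Nat.factorial_ne_zero _
        rw [hF, lam_pow]
        by_cases h7 : ∑ j, c j = 1
        · rw [if_pos h7, if_pos (by omega), smul_eq_C_mul _ (Nat.factorial _ : ℂ), foldr_C,
            ← smul_eq_C_mul, mul_smul_comm, smul_comm _ (Nat.factorial _ : ℂ), inv_smul_smul₀ h4,
            smul_eq_C_mul, map_mul]
          ring
        · have h8 := foldr_C L 0 (0 : MvPolynomial σ ℂ)
          simp only [map_zero, mul_zero, zero_mul] at h8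
          rw [if_neg h7, if_neg (by omega), h8]
          simp
    simp only [key]
    split_ifs with h7
    · exact ⟨{c}, fun _ => Finsupp.single L (C q * map C a), by simpa using h7, by simp⟩
    · exact zero_mem _

end Pool.Agent.MP_5d9b3c_ag.H10
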