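import Mathlib
import Pool.Agent.MP_5d9b3c_ag.H10.Defs
import Pool.Agent.MP_5d9b3c_ag.H10.Smith
import Pool.Agent.MP_5d9b3c_ag.H10.ToBS
import Pool.Agent.MP_5d9b3c_ag.H22.Lift
import Pool.Agent.MP_ee8c61_ag.H10.Final

/-! The poles of the Poincare series of the determinantal ideals. -/

namespace Pool.Agent.MP_5d9b3c_ag.H10

open Polynomial
open Pool.Agent.MP_5d9b3c_ag.H72 (poincare IsBFunction)

lemma poly_of_zero (S : PowerSeries ℚ) (n : ℕ) (h : ∀ N, n ≤ N → PowerSeries.coeff N S = 0) :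
    ∃ P : ℚ[X], S = P :=
  ⟨S.trunc n, PowerSeries.ext fun N => by
    rw [Polynomial.coeff_coe, PowerSeries.coeff_trunc]
    split_ifs with hN
    exacts [rfl, h N (not_lt.1 hN)]⟩

/-- The generating series of the normalised counts. -/
noncomputable def gs (p : ℕ) {ρ : Type} [Fintype ρ] (A : ρ → Prop) (γ : Type) [Fintype γ] (k : ℕ) :
    PowerSeries ℚ :=
  PowerSeries.mk fun N => (cnt (p : ZMod (p ^ N)) A γ k : ℚ) *
    (((p : ℚ) ^ (Fintype.card ρ * Fintype.card γ))⁻¹) ^ N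

/-- The common denominator. -/
noncomputable def den (p m n k : ℕ) : ℚ[X] :=
  ∏ i ∈ Finset.range k, (1 - C ((p : ℚ) ^ ((m - i) * (n - i)))⁻¹ * X ^ (k - i))

lemma den_succ (p m n k : ℕ) : den p (m + 1) (n + 1) (k + 1) =
    den p m n k * (1 - C ((p : ℚ) ^ ((m + 1) * (n + 1)))⁻¹ * X ^ (k + 1)) := by
  simp [den, Finset.prod_range_succ']

variable {p : ℕ} (hp : p.Prime)

include hp

lemma gs_step {ρ γ : Type} [Fintype ρ] [DecidableEq ρ] [Fintype γ] [DecidableEq γ] (k : ℕ)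
    (A : ρ → Prop) (i₀ : ρ) (hi : ¬A i₀) (j₀ : γ) : ∃ (c : ℚ) (P : ℚ[X]),
    gs p A γ (k + 1) - gs p (fun i => A i ∨ i = i₀) γ (k + 1) -
      PowerSeries.C c * gs p (fun i : {i // i ≠ i₀} => A i.1) {j // j ≠ j₀} k =
        (P : PowerSeries ℚ) := by
  classical
  have hp0 : (p : ℚ) ≠ 0 := Nat.cast_ne_zero.2 hp.ne_zero
  obtain ⟨m, hm⟩ : ∃ m, Fintype.card {i // i ≠ i₀} = m := ⟨_, rfl⟩
  obtain ⟨n, hn⟩ : ∃ n, Fintype.card {j // j ≠ j₀} = n := ⟨_, rfl⟩
  have hm' : Fintype.card ρ = m + 1 := by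
    rw [← hm, ← Fintype.card_option, Fintype.card_congr (Equiv.optionSubtypeNe i₀)]
  have hn' : Fintype.card γ = n + 1 := by
    rw [← hn, ← Fintype.card_option, Fintype.card_congr (Equiv.optionSubtypeNe j₀)]
  refine ⟨(1 - ((p : ℚ) ^ (n + 1))⁻¹) * ∏ i : {i // i ≠ i₀}, if A i.1 then (p : ℚ)⁻¹ else 1,
    poly_of_zero _ 1 fun N hN => ?_⟩
  obtain ⟨M, rfl⟩ : ∃ M, N = M + 1 := ⟨N - 1, by omega⟩
  have : NeZero (p ^ (M + 1)) := ⟨pow_ne_zero _ hp.ne_zero⟩
  have h1 := cnt_step (k := k) (p : ZMod (p ^ (M + 1))) (unit_of hp _) A i₀ hi j₀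
  have h2 := card_split' (fun _ : γ → ZMod (p ^ (M + 1)) => True)
    fun r => ∀ j, (p : ZMod (p ^ (M + 1))) ∣ r j
  simp only [true_and, Nat.card_subtype_true, Nat.card_fun, Nat.card_zmod,
    card_all fun (_ : γ) (t : ZMod (p ^ (M + 1))) => (p : ZMod _) ∣ t, card_dvd hp,
    Finset.prod_const, Finset.card_univ, Nat.card_eq_fintype_card (α := γ), hn'] at h2
  have h3 : (Nat.card {u : {i // i ≠ i₀} → ZMod (p ^ (M + 1)) // ∀ i, A i.1 → (p : ZMod _) ∣ u i} :
      ℚ) = ((p : ℚ) ^ (M + 1)) ^ m * ∏ i : {i // i ≠ i₀}, if A i.1 then (p : ℚ)⁻¹ else 1 := by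
    rw [card_all fun (i : {i // i ≠ i₀}) (t : ZMod (p ^ (M + 1))) => A i.1 → (p : ZMod _) ∣ t,
      ← hm, ← Finset.card_univ, ← Finset.prod_const, ← Finset.prod_mul_distrib, Nat.cast_prod]
    refine Finset.prod_congr rfl fun i _ => ?_
    by_cases h : A i.1
    · simp only [h, true_imp_iff, card_dvd hp, if_true]
      push_cast
      field_simp
      ring
    · simp [h]
  have h4 := congrArg (Nat.cast : ℕ → ℚ) h1
  have h5 := congrArg (Nat.cast : ℕ → ℚ) h2
  push_cast at h4 h5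
  simp only [map_sub, PowerSeries.coeff_C_mul, gs, PowerSeries.coeff_mk, hm, hn, hm', hn', h4, h3,
    eq_sub_of_add_eq' h5.symm]
  simp only [inv_pow]
  field_simp
  ring

lemma gs_scale {ρ γ : Type} [Fintype ρ] [Fintype γ] (k : ℕ) : ∃ P : ℚ[X],
    gs p (fun _ : ρ => True) γ (k + 1) -
      PowerSeries.C ((p : ℚ) ^ (Fintype.card ρ * Fintype.card γ))⁻¹ * PowerSeries.X ^ (k + 1) *
        gs p (fun _ : ρ => False) γ (k + 1) = (P : PowerSeries ℚ) := by
  have hp0 : (p : ℚ) ≠ 0 := Nat.cast_ne_zero.2 hp.ne_zero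
  refine poly_of_zero _ (k + 1) fun N hN => ?_
  obtain ⟨M, rfl⟩ : ∃ M, N = M + (k + 1) := ⟨N - (k + 1), by omega⟩
  have h := congrArg (Nat.cast : ℕ → ℚ) (cnt_scale hp (ρ := ρ) (γ := γ) M k)
  push_cast at h
  rw [map_sub, mul_assoc, PowerSeries.coeff_C_mul, PowerSeries.coeff_X_pow_mul, gs, gs,
    PowerSeries.coeff_mk, PowerSeries.coeff_mk, (eq_inv_mul_iff_mul_eq₀ (pow_ne_zero _ hp0)).2 h]
  simp only [inv_pow]
  field_simp
  ring

theorem gs_rat (k : ℕ) : ∀ (ρ γ : Type) [Fintype ρ] [Fintype γ] (A : ρ → Prop),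
    k ≤ Fintype.card ρ → k ≤ Fintype.card γ → ∃ P : ℚ[X],
      (den p (Fintype.card ρ) (Fintype.card γ) k : PowerSeries ℚ) * gs p A γ k = P := by
  classical
  induction k with
  | zero =>
    intro ρ γ _ _ A _ _
    simp only [den, Finset.range_zero, Finset.prod_empty, Polynomial.coe_one, one_mul]
    refine poly_of_zero _ 1 fun N hN => ?_
    have : Fact (1 < p ^ N) := ⟨Nat.one_lt_pow (by omega) hp.one_lt⟩
    have : IsEmpty {x : Matrix ρ γ (ZMod (p ^ N)) //
        (∀ i, A i → ∀ j, (p : ZMod (p ^ N)) ∣ x i j) ∧ Van 0 x} :=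
      ⟨fun x => by simpa using x.2.2 Fin.elim0 Fin.elim0⟩
    simp [gs, cnt]
  | succ k ih =>
    intro ρ γ _ _ A hρ hγ
    obtain ⟨j₀⟩ : Nonempty γ := Fintype.card_pos_iff.1 (by omega)
    obtain ⟨m, hm⟩ : ∃ m, Fintype.card ρ = m + 1 := ⟨Fintype.card ρ - 1, by omega⟩
    obtain ⟨n, hn⟩ : ∃ n, Fintype.card γ = n + 1 := ⟨Fintype.card γ - 1, by omega⟩
    have c1 : ∀ (d : ℕ) (A : ρ → Prop), (Finset.univ.filter fun i => ¬A i).card = d → ∃ P : ℚ[X],
        (den p m n k : PowerSeries ℚ) * (gs p A γ (k + 1) - gs p (fun _ : ρ => True) γ (k + 1)) =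
          P := by
      intro d
      induction d with
      | zero =>
        intro A hA
        have : A = fun _ => True := funext fun i => eq_true (by
          simpa using Finset.filter_eq_empty_iff.1 (Finset.card_eq_zero.1 hA) (Finset.mem_univ i))
        exact ⟨0, by simp [this]⟩
      | succ d ihd =>
        intro A hA
        obtain ⟨i₀, hi⟩ := Finset.card_pos.1 (hA.symm ▸ d.succ_pos : 0 < (Finset.univ.filter fun i => ¬A i).card)
        obtain ⟨P₁, h1⟩ := ihd (fun i => A i ∨ i = i₀) (by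
          have := Finset.card_erase_of_mem hi
          rw [hA] at this
          refine Eq.trans (congrArg _ ?_) this
          ext i
          simp [and_comm])
        obtain ⟨c, P₂, h2⟩ := gs_step hp k A i₀ (by simpa using hi) j₀
        have e1 : Fintype.card {i // i ≠ i₀} = m := by simp [hm]
        have e2 : Fintype.card {j // j ≠ j₀} = n := by simp [hn]
        obtain ⟨P₃, h3⟩ := ih {i // i ≠ i₀} {j // j ≠ j₀} (fun i => A i.1) (by omega) (by omega)
        rw [e1, e2] at h3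
        refine ⟨P₁ + den p m n k * P₂ + C c * P₃, ?_⟩
        simp only [Polynomial.coe_add, Polynomial.coe_mul, Polynomial.coe_C, ← h1, ← h2, ← h3]
        ring
    obtain ⟨P₁, h1⟩ := c1 _ A rfl
    obtain ⟨P₂, h2⟩ := c1 _ (fun _ => False) rfl
    obtain ⟨P₃, h3⟩ := gs_scale hp (ρ := ρ) (γ := γ) k
    rw [hm, hn] at h3 ⊢
    set u : ℚ[X] := C ((p : ℚ) ^ ((m + 1) * (n + 1)))⁻¹ * X ^ (k + 1) with hu
    refine ⟨(1 - u) * P₁ + u * P₂ + den p m n k * P₃, ?_⟩
    simp only [den_succ, hu, Polynomial.coe_add, Polynomial.coe_mul, Polynomial.coe_C,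
      Polynomial.coe_sub, Polynomial.coe_one, Polynomial.coe_pow, Polynomial.coe_X, ← h1, ← h2,
      ← h3]
    ring

omit hp in
theorem no_pole {S : PowerSeries ℚ} {A B P Q : ℚ[X]} (hAB : IsCoprime A B)
    (hP : (B : PowerSeries ℚ) * S = A) {T : ℂ} (hT : aeval T B = 0)
    (h : (Q : PowerSeries ℚ) * S = P) : aeval T Q = 0 := by
  have h5 : Q * A = B * P := by
    apply Polynomial.coe_injective
    rw [Polynomial.coe_mul, Polynomial.coe_mul, ← h, ← hP]
    ring
  obtain ⟨R, hR⟩ : B ∣ Q := hAB.symm.dvd_of_dvd_mul_right ⟨P, h5⟩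
  rw [hR, map_mul, hT, zero_mul]

lemma log_root {T : ℂ} {a l : ℕ} (ha : a ≠ 0) (h : ((p : ℂ) ^ l)⁻¹ * T ^ a = 1) :
    ((-(Real.log ‖T‖ / Real.log p) : ℝ) : ℂ) = -(l : ℂ) / a := by
  have hp0 : (p : ℂ) ^ l ≠ 0 := pow_ne_zero _ (Nat.cast_ne_zero.2 hp.ne_zero)
  have h1 := congrArg (fun z : ℂ => Real.log ‖z‖) ((inv_mul_eq_one₀ hp0).1 h)
  have h3 := (Real.log_pos (Nat.one_lt_cast.2 hp.one_lt : (1 : ℝ) < p)).ne'
  have h4 : (a : ℝ) ≠ 0 := Nat.cast_ne_zero.2 ha
  simp only [norm_pow, Real.log_pow, Complex.norm_natCast] at h1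
  have : -(Real.log ‖T‖ / Real.log p) = -(l : ℝ) / a := by
    field_simp
    linear_combination h1
  rw [this]
  push_cast
  rfl

theorem main (m n k : ℕ) (hm : k < m) (hn : k < n) {A B : ℚ[X]} (hAB : IsCoprime A B)
    (hP : (B : PowerSeries ℚ) * poincare (minorSum m n k) p = A) {T : ℂ} (hT : aeval T B = 0)
    {b : ℂ[X]} (hb : IsBFunction (MvPolynomial.map (Int.castRingHom ℂ) (minorSum m n k)) b) :
    b.eval ((-(Real.log ‖T‖ / Real.log p) : ℝ) : ℂ) = 0 := by
  classical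
  let f : (Fin k ↪o Fin m) × (Fin k ↪o Fin n) → MvPolynomial (Fin m × Fin n) ℤ :=
    fun j => (Matrix.of fun a b => MvPolynomial.X (j.1 a, j.2 b)).det
  have e1 : minorSum m n k = lin f := by
    refine Finset.sum_congr rfl fun j _ => ?_
    rw [AlgHom.map_det]
    congr 2
    ext a b
    simp
  have e2 : MvPolynomial.map (Int.castRingHom ℂ) (minorSum m n k) = ∑ j, MvPolynomial.X (Sum.inl j) *
      MvPolynomial.rename Sum.inr (MP_ee8c61_ag.H10.minor m n k j) := by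
    rw [minorSum, map_sum]
    refine Finset.sum_congr rfl fun j _ => ?_
    rw [map_mul, MvPolynomial.map_X, MP_ee8c61_ag.H10.minor, AlgHom.map_det, RingHom.map_det]
    congr 2
    ext a b
    simp
  have e3 : wser f p = gs p (fun _ : Fin m => False) (Fin n) k := by
    ext N
    rw [wser, gs, PowerSeries.coeff_mk, PowerSeries.coeff_mk, Fintype.card_prod, cnt]
    congr 2
    refine Nat.card_congr ((Equiv.curry _ _ _).subtypeEquiv fun x => ?_)
    have : ∀ j, MvPolynomial.aeval x (f j) =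
        ((Matrix.of fun a b => x (a, b)).submatrix j.1 j.2).det := fun j => by
      rw [AlgHom.map_det]
      congr 1
      ext a b
      simp
    simp only [this, false_imp_iff, implies_true, true_and]
    exact ⟨fun h => MP_ee8c61_ag.H10.det_mem_of_sorted _ ⊥ fun P Q => h (P, Q), fun h j => h _ _⟩
  rw [e2] at hb
  obtain ⟨P, h1⟩ := gs_rat hp k (Fin m) (Fin n) (fun _ => False) (by simpa using hm.le)
    (by simpa using hn.le)
  have h2 := countN hp f
  rw [Fintype.card_fin, Fintype.card_fin, ← e3] at h1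
  have h3 := no_pole hAB hP hT (Q := den p m n k * (1 - C (p : ℚ)⁻¹ * X))
    (P := C (p : ℚ)⁻¹ * den p m n k + C (1 - (p : ℚ)⁻¹) * P) (by
      simp only [Polynomial.coe_sub, Polynomial.coe_mul, Polynomial.coe_X, Polynomial.coe_C,
        Polynomial.coe_one, Polynomial.coe_add, e1, mul_assoc, h2, ← h1]
      ring)
  rw [map_mul, mul_eq_zero, den, map_prod, Finset.prod_eq_zero_iff] at h3
  rcases h3 with ⟨i, hi, h3⟩ | h3
  · rw [log_root hp (a := k - i) (l := (m - i) * (n - i))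
      (Nat.sub_ne_zero_of_lt (Finset.mem_range.1 hi)) (sub_eq_zero.1 (by simpa using h3)).symm]
    have h4 := (Finset.dvd_prod_of_mem _ hi).trans
      (MP_ee8c61_ag.H10.minor_dvd m n k hm hn b (isBS_of _ b hb))
    exact dvd_iff_isRoot.1 h4
  · rw [log_root hp (a := 1) (l := 1) one_ne_zero (sub_eq_zero.1 (by simpa using h3)).symm]
    obtain ⟨d, P, h7, h8⟩ := hb
    refine Eq.trans (by simp) (H22.root_neg_one (fun h9 => ?_) h7 h8)
    let j : (Fin k ↪o Fin m) × (Fin k ↪o Fin n) := (Fin.castLEOrderEmb hm.le, Fin.castLEOrderEmb hn.le)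
    have h10 := MvPolynomial.totalDegree_eq_zero_iff_eq_C.1 h9
    have h11 := congrArg (MvPolynomial.aeval (Sum.elim (fun _ => (0 : ℂ)) fun _ => 0)) h10
    have h12 := congrArg (MvPolynomial.aeval (Sum.elim (fun j' => if j' = j then (1 : ℂ) else 0)
      fun q => if q.1.val = q.2.val then 1 else 0)) h10
    simp only [map_sum, map_mul, MvPolynomial.aeval_X, Sum.elim_inl, zero_mul,
      Finset.sum_const_zero, MvPolynomial.algHom_C, ite_mul, one_mul, Finset.sum_ite_eq',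
      Finset.mem_univ, if_true] at h11 h12
    rw [← h11, MvPolynomial.aeval_rename, MP_ee8c61_ag.H10.minor, AlgHom.map_det] at h12
    refine one_ne_zero (Eq.trans ?_ h12)
    rw [← Matrix.det_one (n := Fin k)]
    congr 1
    ext a b
    simp [j, Matrix.one_apply, Fin.ext_iff]

end Pool.Agent.MP_5d9b3c_ag.H10
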